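import Pool.Agent.helper62.CSE.Spec

/-! # cse:FEG: the forward end game, M = 1 (class S) -/

set_option autoImplicit false

open Complex Metric Set Filter Topology MeasureTheory
open CSS (SE it)
open P2ZS (D2)
open EGH (Rh Al sp len Ex Ld Bw By Lk rv rvD)

noncomputable section

namespace EGHS

/-- the value of one exit term -/
theorem FEG_term {V : ENNReal} (hV : V ≠ ⊤) {c : ℝ} (hc : 0 < c) {L : ℕ} (hL : 0 < L) :
    V / ENNReal.ofReal (c ^ 2) / (L : ENNReal) = ENNReal.ofReal (V.toReal / (c ^ 2 * L)) := by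
  have hL' : (0 : ℝ) < L := by exact_mod_cast hL
  rw [← div_div, ENNReal.ofReal_div_of_pos hL', ENNReal.ofReal_div_of_pos (by positivity), ENNReal.ofReal_toReal hV,
    ENNReal.ofReal_natCast]

theorem FEG (hRVS : EGH.RVS_stmt) (hRVL : EGH.RVL_stmt) (hNRP : EGH.NRP_stmt) (hLNE : EGH.LNE_stmt) (hFXF : FXF_stmt) (hFEW : FEW_stmt) : FEG_stmt := by
  intro f q κ h S O N P DP hf hq hB O' ι ι' Q Q' c c' L L' hO' hO'b hinj hFS hSF hP0 hnf hQ hex hQ' hex'
  obtain ⟨hF, -⟩ := hFXF f q hf hq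
  have hLk : Lk h S O N 1 P := by
    intro l hl s hs
    obtain ⟨h1, h2⟩ := hB.li l hl s hs
    refine ⟨fun i hi => ?_, ?_⟩
    · obtain rfl : i = 0 := by omega
      exact h1
    · simpa using h2
  have hP0' : ∀ l < N, ∀ s ∈ Ioo (0 : ℝ) h, ∀ i < 1, (it f q)^[i] (P l ⟨0, s⟩) ∈ O' := by
    intro l hl s hs i hi
    obtain rfl : i = 0 := by omega
    exact hP0 l hl s hs
  obtain ⟨hB', -⟩ := hNRP κ h (fun _ => Ioo 0 h) S O N P DP hB.toBw (it f q) O' 1 le_rfl hLk hF hO' hO'b hinj hFS hSF hP0'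
  have hE := fun i (hi : i ∈ ι) => hLNE κ h (fun _ => Ioo 0 h) S O N P DP hB.toBw (Q i) (c i) (hQ i hi).1 (hQ i hi).2.2.1
  have hE' := fun i (hi : i ∈ ι') => hLNE κ h _ (it f q) O' N (fun l => rv (P l)) (fun l => rvD (DP l)) hB' (Q' i) (c' i) (hQ' i hi).1 (hQ' i hi).2.2.1
  have hm : ∀ (Q : Set ℂ) (c : ℝ), MeasurableSet Q → Measurable fun w : ℂ => ENNReal.ofReal c⁻¹ * Q.indicator (1 : ℂ → ENNReal) w :=
    fun Q c hQ => measurable_const.mul (measurable_one.indicator hQ)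
  have key := hFEW f q 1 κ h S O N P DP hf hq le_rfl hB.toBw hLk O' ι ι'
    (fun i w => ENNReal.ofReal (c i)⁻¹ * (Q i).indicator 1 w) (fun i w => ENNReal.ofReal (c' i)⁻¹ * (Q' i).indicator 1 w) L L'
    hO' hO'b hinj hFS hSF hP0' (by rwa [mul_one]) (fun i hi => ⟨hm _ _ (hQ i hi).1, (hQ i hi).2.2.2⟩) (by
      intro l hl s hs t h1 h2
      obtain ⟨i, hi, h3, h4⟩ := hex l hl s hs t h1 h2
      refine ⟨i, hi, h3, fun j hj => ?_⟩
      refine (hE i hi).1 l hl s hs (t - 1 - j) ?_ (h4 j hj)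
      intro i' hi' x hx
      exact h1 i' (by omega) x hx) (fun i hi => ⟨hm _ _ (hQ' i hi).1, (hQ' i hi).2.2.2⟩) (by
      intro l hl s hs t h0 h1 h2
      obtain ⟨i, hi, h3, h4⟩ := hex' l hl s hs t h0 h1 h2
      refine ⟨i, hi, h3, fun j hj => ?_⟩
      rw [← hRVL]
      refine (hE' i hi).1 l hl s hs (t - 1 - j) ?_ ((hRVS (it f q) (P l) O' (Q' i) (c' i) (t - 1 - j) s 0).2.2.2 (h4 j hj))
      refine (hRVS (it f q) (P l) O' univ 0 (t - 1 - j + 1) s 0).2.1.2 ?_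
      intro i' hi' x hx
      exact h1 i' (by omega) x hx)
  refine key.trans ?_
  have hnn : 0 ≤ ∑ i ∈ ι, (volume (Q i)).toReal / (c i ^ 2 * L i) := Finset.sum_nonneg fun i _ => by positivity
  have hnn' : 0 ≤ ∑ i ∈ ι', (volume (Q' i)).toReal / (c' i ^ 2 * L' i) := Finset.sum_nonneg fun i _ => by positivity
  rw [ENNReal.ofReal_add hnn hnn', ENNReal.ofReal_sum_of_nonneg (fun i _ => by positivity),
    ENNReal.ofReal_sum_of_nonneg (fun i _ => by positivity)]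
  refine le_of_eq ?_
  congr 1
  · refine Finset.sum_congr rfl fun i hi => ?_
    rw [(hE i hi).2, FEG_term (hQ i hi).2.1 (hQ i hi).2.2.1 (hQ i hi).2.2.2]
  · refine Finset.sum_congr rfl fun i hi => ?_
    rw [(hE' i hi).2, FEG_term (hQ' i hi).2.1 (hQ' i hi).2.2.1 (hQ' i hi).2.2.2]

end EGHS
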